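import Pool.Agent.Helper94.MinRam.Pent

/-!
The bound `s(H) ≤ δ(H) (n - 1)` for all sufficiently large connected graphs of bounded degree.
-/

set_option autoImplicit false

namespace Pool.Agent.Results.MP_e33dd2_co.BoundedDegree

open Pool.Agent.Helper94.MinRam

theorem result (D : ℕ) : ∃ n₀ : ℕ, ∀ n : ℕ, n₀ ≤ n → ∀ H : SimpleGraph (Fin n), H.Connected →
    (∀ u, (H.neighborSet u).ncard ≤ D) → ∀ d, IsMinDeg H d → HasMin H (d * (n - 1)) :=
  q1_bounded D

end Pool.Agent.Results.MP_e33dd2_co.BoundedDegree
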