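import Pool.Agent.Helper94.MinRam.Pent

/-!
The bound `s(H) ≤ δ(H) (n - 1)` for several classes of connected graphs `H`.
-/

set_option autoImplicit false

namespace Pool.Agent.Results.MP_e33dd2_co.ClassTheorem

open Pool.Agent.Helper94.MinRam

theorem result (n d : ℕ) (H : SimpleGraph (Fin n)) (hc : H.Connected) (hd : IsMinDeg H d)
    (h : H.Colorable 2 ∨ (H.Colorable 3 ∧ 5 ≤ d) ∨
      (∃ r R : ℕ, H.Colorable r ∧ CliqueArrow R r ∧
        (2 * R ≤ d + 4 ∨ (R ≤ d + 1 ∧ StarBound H (n / 2)))) ∨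
      (∃ r : ℕ, H.Colorable r ∧ ¬ H.CliqueFree r ∧ HasMin (⊤ : SimpleGraph (Fin r)) d)) :
    HasMin H (d * (n - 1)) := by
  rcases h with h | ⟨h, h5⟩ | ⟨r, R, h, hR, h2⟩ | ⟨r, h, hcl, hm⟩
  · exact q1_bipartite H hc h hd
  · exact q1_three H hc h hd h5
  · exact q1_minDeg H hc h hR hd h2
  · exact q1_clique H hc h hcl hm

end Pool.Agent.Results.MP_e33dd2_co.ClassTheorem
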