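import Pool.Agent.Helper94.MinRam.Pent

/-!
An upper bound for `s(H)` in terms of the chromatic number and the largest induced star of `H`.
-/

set_option autoImplicit false

namespace Pool.Agent.Results.MP_e33dd2_co.ColourStarBound

open Pool.Agent.Helper94.MinRam

theorem result (n r d a : ℕ) (H : SimpleGraph (Fin n)) (hH : H ≠ ⊥) (hcol : H.Colorable r)
    (ha : StarBound H a)
    (h : CliqueArrow (d + 1) r ∨ (¬ H.CliqueFree r ∧ HasMin (⊤ : SimpleGraph (Fin r)) d)) :
    HasMin H (d * (2 * a - 1)) := by
  rcases h with h | ⟨hcl, hd⟩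
  · exact (general_star H hH hcol h ha).1
  · exact (clique_star H hH hcol hcl ha hd).1

end Pool.Agent.Results.MP_e33dd2_co.ColourStarBound
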