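import Pool.Agent.Helper27.BEL.Final

/-!
The bound `s(H) ≤ (χ(H) - 1) (δ(H) - 1) + n - |W| ≤ δ(H) (n - 1)` for all 3-connected graphs `H` on
`n` vertices (`W` any colour class of a proper colouring with `χ(H) = r + 1` colours).
-/

set_option autoImplicit false

namespace Pool.Agent.Results.MP_e33dd2_co.ThreeConnected

/-- `s(H) ≤ k`: there is a Ramsey-minimal graph `G` for `H` with a vertex of degree at most `k`.
The first condition says `G → H`, the second that no proper subgraph `G'` of `G` (with vertex set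
`S`) satisfies `G' → H`. -/
def SLe {n : ℕ} (H : SimpleGraph (Fin n)) (k : ℕ) : Prop :=
  ∃ m : ℕ, ∃ G : SimpleGraph (Fin m),
    (∀ c : Fin m → Fin m → Fin 2, (∀ a b : Fin m, c a b = c b a) →
      ∃ i : Fin 2, ∃ f : Fin n → Fin m,
        Function.Injective f ∧
          ∀ u v : Fin n, H.Adj u v → G.Adj (f u) (f v) ∧ c (f u) (f v) = i) ∧
    (∀ S : Set (Fin m), ∀ G' : SimpleGraph (Fin m), G' ≤ G →
        ¬ (S = Set.univ ∧ G' = G) →
        ∃ c : Fin m → Fin m → Fin 2, (∀ a b : Fin m, c a b = c b a) ∧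
          ∀ i : Fin 2, ∀ f : Fin n → Fin m,
            Function.Injective f → (∀ u : Fin n, f u ∈ S) →
              ∃ u v : Fin n, H.Adj u v ∧
                ¬ (G'.Adj (f u) (f v) ∧ c (f u) (f v) = i)) ∧
    ∃ x : Fin m, (G.neighborSet x).ncard ≤ k

theorem result (n r d : ℕ) (H : SimpleGraph (Fin n)) (hn : 4 ≤ n)
    (h3 : ∀ T : Finset (Fin n), T.card ≤ 2 → (H.induce {v | v ∉ T}).Connected)
    (hd : (∃ v : Fin n, (H.neighborSet v).ncard = d) ∧ ∀ w : Fin n, d ≤ (H.neighborSet w).ncard)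
    (C : Fin n → Fin (r + 1)) (hC : ∀ u v, H.Adj u v → C u ≠ C v) (hr : ¬ H.Colorable r)
    (j : Fin (r + 1)) :
    SLe H (r * (d - 1) + (n - (Finset.univ.filter (fun v => C v = j)).card)) ∧
      r * (d - 1) + (n - (Finset.univ.filter (fun v => C v = j)).card) ≤ d * (n - 1) :=
  Pool.Agent.Helper27.BEL.three_connected_both H ⟨hn, h3⟩ hd C hC hr j

end Pool.Agent.Results.MP_e33dd2_co.ThreeConnected
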